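import Mathlib
import Pool.Agent.Helper9.CY.Types

/-!
# The choice of the partition in the vanishing theorem for curves of type `(s, d)`
-/

set_option linter.unusedSectionVars false

namespace CY

open Finset Function

section arith

lemma le_mul_up {m : ℕ} (hm : 0 < m) (d : ℕ) : d ≤ m * up m d := by
  unfold up
  have h1 := Nat.div_add_mod (d + m - 1) m
  have h2 := Nat.mod_lt (d + m - 1) hm
  omega

lemma mul_up_of_dvd {m : ℕ} (hm : 0 < m) {d : ℕ} (h : m ∣ d) : m * up m d = d := by
  obtain ⟨t, rfl⟩ := h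
  unfold up
  have h1 : m * t + m - 1 = (m - 1) + m * t := by omega
  rw [h1, Nat.add_mul_div_left _ _ hm, Nat.div_eq_of_lt (by omega : m - 1 < m), zero_add]

lemma lt_mul_up {m : ℕ} (hm : 0 < m) {d : ℕ} (h : ¬ m ∣ d) : d < m * up m d := by
  rcases (le_mul_up hm d).lt_or_eq with h1 | h1
  · exact h1
  · exact absurd ⟨_, h1⟩ h

lemma up_zero {m : ℕ} (hm : 0 < m) : up m 0 = 0 := by
  unfold up
  exact Nat.div_eq_of_lt (by omega)

lemma mult_ne_zero {m : ℕ} (hm : 2 ≤ m) {s d : ℕ} (b : Br m s d) : mult m s d b ≠ 0 := by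
  rcases b with (i | l) | o
  · exact one_ne_zero
  · change m - 1 ≠ 0
    omega
  · change m * up m d - d ≠ 0
    by_cases h : m ∣ d
    · rw [if_pos h] at o
      exact o.elim0
    · have := lt_mul_up (by omega) h
      omega

lemma sum_mult {m : ℕ} (hm : 2 ≤ m) (s d : ℕ) : ∑ b, mult m s d b = m * (s + up m d) := by
  rw [Fintype.sum_sum_type, Fintype.sum_sum_type]
  have h1 : ∑ i : Fin (s + d), mult m s d (Sum.inl (Sum.inl i)) = s + d := by
    simp [mult]
  have h2 : ∑ i : Fin s, mult m s d (Sum.inl (Sum.inr i)) = s * (m - 1) := by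
    simp [mult]
  have h3 : ∑ i : Fin (if m ∣ d then 0 else 1), mult m s d (Sum.inr i) =
      (if m ∣ d then 0 else 1) * (m * up m d - d) := by
    simp only [mult, Finset.sum_const, Finset.card_univ, Fintype.card_fin, smul_eq_mul]
  rw [h1, h2, h3]
  have h4 : s + s * (m - 1) = m * s := by
    obtain ⟨t, rfl⟩ : ∃ t, m = t + 1 := ⟨m - 1, by omega⟩
    rw [Nat.add_sub_cancel]; ring
  rw [mul_add, ← h4]
  by_cases h : m ∣ d
  · rw [if_pos h, zero_mul, mul_up_of_dvd (by omega) h]; omega
  · rw [if_neg h, one_mul]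
    have := le_mul_up (by omega : 0 < m) d
    omega

lemma card_br (m s d : ℕ) : Fintype.card (Br m s d) = 2 * s + r0 m d := by
  rw [Fintype.card_sum, Fintype.card_sum, Fintype.card_fin, Fintype.card_fin, Fintype.card_fin]
  unfold r0
  omega

end arith

variable {m : ℕ} [NeZero m]

/-- The partition used for `d > 0`. -/
lemma part_exists {β : Type} [Fintype β] (n : β → ZMod m) {s : ℕ} {U : Type} [Fintype U]
    [Nonempty U] (e : β ≃ (Fin s ⊕ Fin s) ⊕ Option U)
    (hn : ∀ l, n (e.symm (.inl (.inl l))) + n (e.symm (.inl (.inr l))) = 0)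
    (v : ZMod m → ℕ) (h0 : v 0 = 0) (hv : v ≠ 0) (hv2 : ∑ j, (v j : ZMod m) * j = 0)
    (k : Type*) [Zero k] :
    ∃ (Λ : Type) (_ : Fintype Λ) (_ : DecidableEq Λ) (l₀ l₁ : Λ)
      (π : (j : ZMod m) → Fin (v j) → β → Λ),
      (∀ l, l ≠ l₀ → l ≠ l₁ →
        ∑ j : ZMod m, ∑ i : Fin (v j), ∑ b : β, (if π j i b = l then j * n b else 0) = 0) ∧
      (Fintype.card Λ = 2 + Fintype.card U + s * ∑ j, v j) ∧
      (∀ μ : Λ → k, μ l₀ = 0 → μ ≠ 0 → ∃ (j : ZMod m) (b b' : β) (y : k), y ≠ 0 ∧
        Nat.card {i : Fin (v j) // μ (π j i b') = y} <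
          Nat.card {i : Fin (v j) // μ (π j i b) = y}) := by
  classical
  obtain ⟨js, hjs⟩ : ∃ js, v js ≠ 0 := by
    by_contra h
    push Not at h
    exact hv (funext h)
  set π' : (j : ZMod m) → Fin (v j) → ((Fin s ⊕ Fin s) ⊕ Option U) →
      ((Fin s × (Σ j : ZMod m, Fin (v j))) ⊕ U) ⊕ Bool := fun j i c =>
    match c with
    | .inl (.inl l) => .inl (.inl (l, ⟨j, i⟩))
    | .inl (.inr l) => .inl (.inl (l, ⟨j, i⟩))
    | .inr (some u) => .inl (.inr u)
    | .inr none => .inr (decide (j = js ∧ i.val = 0)) with hπ'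
  refine ⟨((Fin s × (Σ j : ZMod m, Fin (v j))) ⊕ U) ⊕ Bool, inferInstance, inferInstance,
    .inr false, .inr true, fun j i b => π' j i (e b), ?_, ?_, ?_⟩
  · -- the sums
    intro l hl0 hl1
    have hsum : ∀ (j : ZMod m) (i : Fin (v j)),
        ∑ b : β, (if π' j i (e b) = l then j * n b else 0) =
        (∑ l' : Fin s, (if π' j i (.inl (.inl l')) = l then j * n (e.symm (.inl (.inl l'))) else 0) +
          ∑ l' : Fin s, (if π' j i (.inl (.inr l')) = l then j * n (e.symm (.inl (.inr l')))
            else 0)) +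
        ∑ o : Option U, (if π' j i (.inr o) = l then j * n (e.symm (.inr o)) else 0) := by
      intro j i
      rw [← Fintype.sum_sum_type (fun c : Fin s ⊕ Fin s => if π' j i (.inl c) = l then
        j * n (e.symm (.inl c)) else 0), ← Fintype.sum_sum_type (fun c : (Fin s ⊕ Fin s) ⊕ Option U =>
        if π' j i c = l then j * n (e.symm c) else 0), ← Equiv.sum_comp e]
      simp
    have h1 : ∀ (j : ZMod m) (i : Fin (v j)),
        (∑ l' : Fin s, (if π' j i (.inl (.inl l')) = l then j * n (e.symm (.inl (.inl l'))) else 0) +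
          ∑ l' : Fin s, (if π' j i (.inl (.inr l')) = l then j * n (e.symm (.inl (.inr l')))
            else 0)) = 0 := by
      intro j i
      rw [← Finset.sum_add_distrib]
      apply Finset.sum_eq_zero
      intro l' _
      have : π' j i (.inl (.inl l')) = π' j i (.inl (.inr l')) := rfl
      rw [this]
      split_ifs
      · rw [← mul_add, hn, mul_zero]
      · rw [add_zero]
    simp only [hsum, h1, zero_add]
    rcases l with (⟨l', j', i'⟩ | u) | t
    · apply Finset.sum_eq_zero
      intro j _
      apply Finset.sum_eq_zero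
      intro i _
      apply Finset.sum_eq_zero
      intro o _
      rw [if_neg]
      rcases o with _ | u
      · simp [hπ']
      · simp [hπ']
    · have h2 : ∀ (j : ZMod m) (i : Fin (v j)),
          ∑ o : Option U, (if π' j i (.inr o) = .inl (.inr u) then j * n (e.symm (.inr o)) else 0)
          = j * n (e.symm (.inr (some u))) := by
        intro j i
        rw [Finset.sum_eq_single (some u)]
        · rw [if_pos rfl]
        · intro o _ ho
          rw [if_neg]
          rcases o with _ | u'
          · simp [hπ']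
          · intro h
            apply ho
            simpa [hπ'] using h
        · intro h; exact absurd (Finset.mem_univ _) h
      simp only [h2, Finset.sum_const, Finset.card_univ, Fintype.card_fin, nsmul_eq_mul]
      have h3 : ∀ j : ZMod m, (v j : ZMod m) * (j * n (e.symm (.inr (some u)))) =
          (v j : ZMod m) * j * n (e.symm (.inr (some u))) := fun j => by ring
      simp only [h3]
      rw [← Finset.sum_mul, hv2, zero_mul]
    · cases t
      · exact absurd rfl hl0
      · exact absurd rfl hl1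
  · -- the cardinality
    simp only [Fintype.card_sum, Fintype.card_prod, Fintype.card_sigma, Fintype.card_fin,
      Fintype.card_bool]
    ring
  · -- the inequalities
    intro μ hμ0 hμ
    by_contra hcon
    push Not at hcon
    have hcon' : ∀ (j : ZMod m) (c c' : (Fin s ⊕ Fin s) ⊕ Option U) (y : k), y ≠ 0 →
        Nat.card {i : Fin (v j) // μ (π' j i c) = y} ≤
          Nat.card {i : Fin (v j) // μ (π' j i c') = y} := by
      intro j c c' y hy
      have := hcon j (e.symm c) (e.symm c') y hy
      simpa using this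
    obtain ⟨u0⟩ := (inferInstance : Nonempty U)
    -- positive count
    have hpos : ∀ (j : ZMod m) (i : Fin (v j)) (c : (Fin s ⊕ Fin s) ⊕ Option U) (y : k),
        μ (π' j i c) = y → 0 < Nat.card {i : Fin (v j) // μ (π' j i c) = y} := by
      intro j i c y h
      have : Nonempty {i : Fin (v j) // μ (π' j i c) = y} := ⟨⟨i, h⟩⟩
      exact Nat.card_pos
    have hex : ∀ (j : ZMod m) (i : Fin (v j)) (c c' : (Fin s ⊕ Fin s) ⊕ Option U),
        μ (π' j i c) ≠ 0 → ∃ i', μ (π' j i' c') = μ (π' j i c) := by
      intro j i c c' h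
      have h1 := hpos j i c _ rfl
      have h2 := lt_of_lt_of_le h1 (hcon' j c c' _ h)
      obtain ⟨⟨i', hi'⟩⟩ := (Nat.card_pos_iff.mp h2).1
      exact ⟨i', hi'⟩
    -- the values at the points of `U`
    have hU : ∀ u : U, μ (.inl (.inr u)) = 0 := by
      intro u
      by_contra hu
      by_cases hj : ∃ j, j ≠ js ∧ v j ≠ 0
      · obtain ⟨j, hj, hvj⟩ := hj
        obtain ⟨i', hi'⟩ := hex j ⟨0, Nat.pos_of_ne_zero hvj⟩ (.inr (some u)) (.inr none) hu
        apply hu
        have : π' j i' (.inr none) = .inr false := by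
          simp [hπ', hj]
        rw [this, hμ0] at hi'
        exact hi'.symm
      · push Not at hj
        have h1 : (v js : ZMod m) * js = 0 := by
          rw [← hv2, Finset.sum_eq_single js]
          · intro j _ hjj
            rw [hj j hjj]; simp
          · intro h; exact absurd (Finset.mem_univ _) h
        have h2 : v js ≠ 1 := by
          intro h
          rw [h, Nat.cast_one, one_mul] at h1
          rw [h1] at hjs
          exact hjs h0
        -- two indices
        have h3 : Nat.card {i : Fin (v js) // μ (π' js i (.inr (some u))) = μ (.inl (.inr u))} =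
            v js := by
          have : ∀ i : Fin (v js), μ (π' js i (.inr (some u))) = μ (.inl (.inr u)) := fun i => rfl
          rw [Nat.card_congr (Equiv.subtypeUnivEquiv this), Nat.card_fin]
        have h4 : Nat.card {i : Fin (v js) // μ (π' js i (.inr none)) = μ (.inl (.inr u))} ≤ 1 := by
          rw [Finite.card_le_one_iff_subsingleton]
          constructor
          rintro ⟨i, hi⟩ ⟨i', hi'⟩
          have key : ∀ i : Fin (v js), μ (π' js i (.inr none)) = μ (.inl (.inr u)) → i.val = 0 := by
            intro i hi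
            by_contra h
            have : π' js i (.inr none) = .inr false := by
              simp [hπ', h]
            rw [this, hμ0] at hi
            exact hu hi.symm
          apply Subtype.ext
          apply Fin.ext
          change i.val = i'.val
          rw [key i hi, key i' hi']
        have h5 := hcon' js (.inr (some u)) (.inr none) _ hu
        rw [h3] at h5
        omega
    -- the value at `l₁`
    have h1 : μ (.inr true) = 0 := by
      by_contra h
      have hval : π' js ⟨0, Nat.pos_of_ne_zero hjs⟩ (.inr none) = .inr true := by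
        simp [hπ']
      obtain ⟨i', hi'⟩ := hex js ⟨0, Nat.pos_of_ne_zero hjs⟩ (.inr none) (.inr (some u0))
        (by rw [hval]; exact h)
      apply h
      rw [hval] at hi'
      rw [← hi']
      exact hU u0
    apply hμ
    funext l
    rcases l with (⟨l', j', i'⟩ | u) | t
    · by_contra h
      obtain ⟨i'', hi''⟩ := hex j' i' (.inl (.inl l')) (.inr none) h
      apply h
      change μ (π' j' i' (.inl (.inl l'))) = 0
      rw [← hi'']
      change μ (.inr _) = 0
      cases decide (j' = js ∧ i''.val = 0)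
      · exact hμ0
      · exact h1
    · exact hU u
    · cases t
      · exact hμ0
      · exact h1

/-- The bijection of the branch points. -/
def brEquiv (m s e : ℕ) : Br m s (e + 1) ≃
    (Fin s ⊕ Fin s) ⊕ Option (Fin e ⊕ Fin (if m ∣ e + 1 then 0 else 1)) where
  toFun b := match b with
    | .inl (.inl i) => if h : i.val < s then .inl (.inl ⟨i.val, h⟩) else
        if h' : i.val = s then .inr none else .inr (some (.inl ⟨i.val - s - 1, by
          have := i.isLt
          omega⟩))
    | .inl (.inr l) => .inl (.inr l)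
    | .inr o => .inr (some (.inr o))
  invFun c := match c with
    | .inl (.inl l) => .inl (.inl ⟨l.val, by have := l.isLt; omega⟩)
    | .inl (.inr l) => .inl (.inr l)
    | .inr none => .inl (.inl ⟨s, by omega⟩)
    | .inr (some (.inl i)) => .inl (.inl ⟨s + 1 + i.val, by have := i.isLt; omega⟩)
    | .inr (some (.inr o)) => .inr o
  left_inv b := by
    rcases b with (i | l) | o
    · by_cases h : i.val < s
      · simp only [dif_pos h]
      · by_cases h' : i.val = s
        · simp only [dif_neg h, dif_pos h']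
          congr 2
          exact Fin.ext h'.symm
        · simp only [dif_neg h, dif_neg h']
          congr 2
          apply Fin.ext
          change s + 1 + (i.val - s - 1) = i.val
          omega
    · rfl
    · rfl
  right_inv c := by
    rcases c with (l | l) | (_ | (i | o))
    · simp
    · rfl
    · simp
    · simp only
      rw [dif_neg (by omega), dif_neg (by omega)]
      congr 3
      apply Fin.ext
      change s + 1 + i.val - s - 1 = i.val
      omega
    · rfl

/-- The case `d = 0`. -/
lemma part_zero {s : ℕ} (hs : 0 < s) (hm : 2 ≤ m) {x : ZMod m → ℕ} {j0 : ZMod m}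
    (hj : s ≤ x j0) (k : Type*) [Zero k] :
    ∃ (v : ZMod m → ℕ) (Λ : Type) (_ : Fintype Λ) (_ : DecidableEq Λ) (l₀ l₁ : Λ)
      (π : (j : ZMod m) → Fin (v j) → Br m s 0 → Λ),
      (∀ l, l ≠ l₀ → l ≠ l₁ → ∑ j : ZMod m, ∑ i : Fin (v j), ∑ b : Br m s 0,
        (if π j i b = l then j * (mult m s 0 b : ZMod m) else 0) = 0) ∧
      (∑ j, v j * (Fintype.card (Br m s 0) - 1 - x j) + 1 < Fintype.card Λ) ∧
      (∀ μ : Λ → k, μ l₀ = 0 → μ ≠ 0 → ∃ (j : ZMod m) (b b' : Br m s 0) (y : k), y ≠ 0 ∧
        Nat.card {i : Fin (v j) // μ (π j i b') = y} <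
          Nat.card {i : Fin (v j) // μ (π j i b) = y}) := by
  classical
  set π' : Br m s 0 → Option (Fin s) := fun b =>
    match b with
    | .inl (.inl i) => if i.val = 0 then none else some ⟨i.val, i.isLt⟩
    | .inl (.inr l) => some l
    | .inr _ => none with hπ'
  refine ⟨Pi.single j0 1, Option (Fin s), inferInstance, inferInstance, none, some ⟨0, hs⟩,
    fun j i b => π' b, ?_, ?_, ?_⟩
  · intro l hl0 hl1
    apply Finset.sum_eq_zero
    intro j _
    apply Finset.sum_eq_zero
    intro i _
    rw [Fintype.sum_sum_type, Fintype.sum_sum_type]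
    obtain ⟨l', rfl⟩ := Option.ne_none_iff_exists'.mp hl0
    have h0 : l'.val ≠ 0 := by
      intro h
      apply hl1
      congr 1
      exact Fin.ext h
    have h1 : ∑ i : Fin (s + 0), (if π' (.inl (.inl i)) = some l' then
        j * ((mult m s 0 (.inl (.inl i)) : ℕ) : ZMod m) else 0) = j := by
      rw [Finset.sum_eq_single (⟨l'.val, by have := l'.isLt; omega⟩ : Fin (s + 0))]
      · rw [if_pos]
        · simp [mult]
        · simp [hπ', h0]
      · intro i _ hi
        rw [if_neg]
        simp only [hπ']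
        split_ifs with h
        · simp
        · intro hh
          apply hi
          apply Fin.ext
          have := Option.some_injective _ hh
          rw [← this]
      · intro h; exact absurd (Finset.mem_univ _) h
    have h2 : ∑ i : Fin s, (if π' (.inl (.inr i)) = some l' then
        j * ((mult m s 0 (.inl (.inr i)) : ℕ) : ZMod m) else 0) = j * ((m - 1 : ℕ) : ZMod m) := by
      rw [Finset.sum_eq_single l']
      · rw [if_pos]
        · simp [mult]
        · simp [hπ']
      · intro i _ hi
        rw [if_neg]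
        simp only [hπ']
        intro hh
        exact hi (Option.some_injective _ hh)
      · intro h; exact absurd (Finset.mem_univ _) h
    have h3 : ∑ i : Fin (if m ∣ 0 then 0 else 1), (if π' (.inr i) = some l' then
        j * ((mult m s 0 (.inr i) : ℕ) : ZMod m) else 0) = 0 := by
      apply Finset.sum_eq_zero
      intro i _
      rw [if_neg]
      simp [hπ']
    rw [h1, h2, h3, add_zero]
    have h4 : ((m - 1 : ℕ) : ZMod m) + 1 = 0 := by
      have : ((m - 1 + 1 : ℕ) : ZMod m) = 0 := by
        rw [Nat.sub_add_cancel (by omega)]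
        exact ZMod.natCast_self m
      rwa [Nat.cast_add, Nat.cast_one] at this
    calc j + j * ((m - 1 : ℕ) : ZMod m) = j * (((m - 1 : ℕ) : ZMod m) + 1) := by ring
      _ = 0 := by rw [h4, mul_zero]
  · rw [Finset.sum_eq_single j0]
    · rw [Pi.single_eq_same, one_mul, card_br, Fintype.card_option, Fintype.card_fin]
      have : r0 m 0 = 0 := by simp [r0]
      rw [this]
      omega
    · intro j _ hj'
      rw [Pi.single_eq_of_ne hj', zero_mul]
    · intro h; exact absurd (Finset.mem_univ _) h
  · intro μ hμ0 hμ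
    obtain ⟨l, hl⟩ : ∃ l, μ l ≠ 0 := by
      by_contra h
      push Not at h
      exact hμ (funext h)
    have hl0 : l ≠ none := by
      rintro rfl
      exact hl hμ0
    obtain ⟨l', rfl⟩ := Option.ne_none_iff_exists'.mp hl0
    refine ⟨j0, .inl (.inr l'), .inl (.inl ⟨0, by omega⟩), μ (some l'), hl, ?_⟩
    have h1 : Nat.card {i : Fin ((Pi.single j0 1 : ZMod m → ℕ) j0) //
        μ (π' (.inl (.inl ⟨0, by omega⟩))) = μ (some l')} = 0 := by
      have : IsEmpty {i : Fin ((Pi.single j0 1 : ZMod m → ℕ) j0) //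
          μ (π' (.inl (.inl ⟨0, by omega⟩))) = μ (some l')} := by
        constructor
        rintro ⟨i, hi⟩
        apply hl
        rw [← hi]
        simpa [hπ'] using hμ0
      exact Nat.card_of_isEmpty
    have h2 : 0 < Nat.card {i : Fin ((Pi.single j0 1 : ZMod m → ℕ) j0) //
        μ (π' (.inl (.inr l'))) = μ (some l')} := by
      have : Nonempty {i : Fin ((Pi.single j0 1 : ZMod m → ℕ) j0) //
          μ (π' (.inl (.inr l'))) = μ (some l')} :=
        ⟨⟨⟨0, by rw [Pi.single_eq_same]; exact one_pos⟩, rfl⟩⟩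
      exact Nat.card_pos
    rw [h1]
    exact h2

/-- The choice of `v` for `d > 0`. -/
lemma exists_vec (hm : 2 ≤ m) {s r : ℕ} (hr : 0 < r) {x : ZMod m → ℕ} {v : ZMod m → ℕ} (h0 : v 0 = 0)
    (hv : v ≠ 0) (hv2 : ∑ j, (v j : ZMod m) * j = 0)
    (hlt : ∑ j, (v j : ℤ) * ((s : ℤ) + r - 1 - x j) < r) :
    ∃ v : ZMod m → ℕ, v 0 = 0 ∧ v ≠ 0 ∧ ∑ j, (v j : ZMod m) * j = 0 ∧
      ∑ j, v j * (2 * s + r - 1 - x j) + 1 < 2 + (r - 1) + s * ∑ j, v j := by
  classical
  by_cases hx : ∀ j, v j ≠ 0 → x j + 1 ≤ 2 * s + r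
  · refine ⟨v, h0, hv, hv2, ?_⟩
    have h1 : ∀ j, ((v j * (2 * s + r - 1 - x j) : ℕ) : ℤ) =
        s * v j + (v j : ℤ) * ((s : ℤ) + r - 1 - x j) := by
      intro j
      by_cases h : v j = 0
      · rw [h]; simp
      · have h2 := hx j h
        have h3 : ((2 * s + r - 1 - x j : ℕ) : ℤ) = 2 * s + r - 1 - x j := by
          omega
        rw [Nat.cast_mul, h3]
        ring
    have h2 : ((∑ j, v j * (2 * s + r - 1 - x j) : ℕ) : ℤ) =
        s * ∑ j, (v j : ℤ) + ∑ j, (v j : ℤ) * ((s : ℤ) + r - 1 - x j) := by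
      rw [Nat.cast_sum, Finset.sum_congr rfl (fun j _ => h1 j), Finset.sum_add_distrib,
        Finset.mul_sum]
    have h3 : ((s * ∑ j, v j : ℕ) : ℤ) = s * ∑ j, (v j : ℤ) := by
      rw [Nat.cast_mul, Nat.cast_sum]
    zify [hr]
    rw [show ((∑ j, (v j : ℤ) * ((2 * s + r - 1 - x j : ℕ) : ℤ)) : ℤ) =
      ((∑ j, v j * (2 * s + r - 1 - x j) : ℕ) : ℤ) by rw [Nat.cast_sum]; simp, h2]
    linarith
  · push Not at hx
    obtain ⟨j, hj, hxj⟩ := hx
    have hj0 : j ≠ 0 := by
      rintro rfl
      exact hj h0
    refine ⟨Pi.single j m, Pi.single_eq_of_ne hj0.symm _, ?_, ?_, ?_⟩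
    · intro h
      have := congrFun h j
      rw [Pi.single_eq_same, Pi.zero_apply] at this
      omega
    · rw [Finset.sum_eq_single j]
      · rw [Pi.single_eq_same, ZMod.natCast_self, zero_mul]
      · intro i _ hi
        rw [Pi.single_eq_of_ne hi]; simp
      · intro h; exact absurd (Finset.mem_univ _) h
    · rw [Finset.sum_eq_zero]
      · have : 0 ≤ s * ∑ i, (Pi.single j m : ZMod m → ℕ) i := Nat.zero_le _
        omega
      · intro i _
        by_cases hi : i = j
        · subst hi
          have : 2 * s + r - 1 - x i = 0 := by omega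
          rw [this, mul_zero]
        · rw [Pi.single_eq_of_ne hi, zero_mul]

/-- The choice of `v` and of the partition. -/
theorem van_part (hm : 2 ≤ m) {s d : ℕ} (hsd : 0 < s + d) {x : ZMod m → ℕ}
    (hx : ¬ Surv m s d x) (k : Type*) [Zero k] :
    ∃ (v : ZMod m → ℕ) (Λ : Type) (_ : Fintype Λ) (_ : DecidableEq Λ) (l₀ l₁ : Λ)
      (π : (j : ZMod m) → Fin (v j) → Br m s d → Λ),
      (∀ l, l ≠ l₀ → l ≠ l₁ → ∑ j : ZMod m, ∑ i : Fin (v j), ∑ b : Br m s d,
        (if π j i b = l then j * (mult m s d b : ZMod m) else 0) = 0) ∧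
      (∑ j, v j * (Fintype.card (Br m s d) - 1 - x j) + 1 < Fintype.card Λ) ∧
      (∀ μ : Λ → k, μ l₀ = 0 → μ ≠ 0 → ∃ (j : ZMod m) (b b' : Br m s d) (y : k), y ≠ 0 ∧
        Nat.card {i : Fin (v j) // μ (π j i b') = y} <
          Nat.card {i : Fin (v j) // μ (π j i b) = y}) := by
  classical
  rcases Nat.eq_zero_or_pos d with hd | hd
  · subst hd
    have : ∃ j : ZMod m, j ≠ 0 ∧ s ≤ x j := by
      by_contra hcon
      push Not at hcon
      apply hx
      exact ⟨fun _ j hj => hcon j hj, fun h => absurd rfl h⟩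
    obtain ⟨j, -, hj⟩ := this
    exact part_zero (by omega) hm hj k
  · obtain ⟨e, rfl⟩ : ∃ e, d = e + 1 := ⟨d - 1, by omega⟩
    have : ∃ v : ZMod m → ℕ, v 0 = 0 ∧ v ≠ 0 ∧ ∑ j, (v j : ZMod m) * j = 0 ∧
        ∑ j, (v j : ℤ) * ((s : ℤ) + r0 m (e + 1) - 1 - x j) < (r0 m (e + 1) : ℤ) := by
      by_contra hcon
      push Not at hcon
      apply hx
      exact ⟨fun h => by omega, fun _ v h0 hv h => hcon v h0 hv h⟩
    obtain ⟨v, h0, hv, hv2, hlt⟩ := this
    have hr : 2 ≤ r0 m (e + 1) := by
      unfold r0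
      split_ifs with h
      · have := Nat.le_of_dvd (by omega) h
        omega
      · omega
    obtain ⟨w, h0', hw, hw2, hlt'⟩ := exists_vec hm (by omega) h0 hv hv2 hlt
    have : Nonempty (Fin e ⊕ Fin (if m ∣ e + 1 then 0 else 1)) := by
      by_cases h : m ∣ e + 1
      · have := Nat.le_of_dvd (by omega) h
        exact ⟨.inl ⟨0, by omega⟩⟩
      · exact ⟨.inr ⟨0, by rw [if_neg h]; exact one_pos⟩⟩
    obtain ⟨Λ, i1, i2, l₀, l₁, π, h1, h2, h3⟩ := part_exists
      (fun b : Br m s (e + 1) => (mult m s (e + 1) b : ZMod m)) (brEquiv m s e) (by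
        intro l
        change ((1 : ℕ) : ZMod m) + ((m - 1 : ℕ) : ZMod m) = 0
        rw [← Nat.cast_add, show 1 + (m - 1) = m by omega]
        exact ZMod.natCast_self m) w h0' hw hw2 k
    refine ⟨w, Λ, i1, i2, l₀, l₁, π, h1, ?_, h3⟩
    rw [h2, card_br]
    have h4 : Fintype.card (Fin e ⊕ Fin (if m ∣ e + 1 then 0 else 1)) = r0 m (e + 1) - 1 := by
      rw [Fintype.card_sum, Fintype.card_fin, Fintype.card_fin]
      unfold r0
      omega
    rw [h4]
    exact hlt'

end CY
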