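import Mathlib
import Pool.Agent.Helper9.CY.Types
import Pool.Agent.Helper57.CY.Rearr

/-!
# The sum of products from the bounds for partial sums
-/

set_option linter.unusedSectionVars false

namespace CY

open Finset

lemma up_mono (m : ℕ) {d d' : ℕ} (h : d ≤ d') : up m d ≤ up m d' := by
  unfold up
  exact Nat.div_le_div_right (by omega)

/-- The bound for `∑ x y`, from the bounds for the partial sums of `x` and `y`. -/
theorem comb_of_bound {m : ℕ} [NeZero m] (hm : 2 ≤ m) {s d s' d' : ℕ} {x y : ZMod m → ℕ}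
    (h1 : ∀ J : Finset (ZMod m), 0 ∉ J →
      ∑ j ∈ J, x j ≤ ∑ i ∈ range J.card, (s + up m ((m - 1 - i) * d) - 1))
    (h2 : ∀ J : Finset (ZMod m), 0 ∉ J →
      ∑ j ∈ J, y j ≤ ∑ i ∈ range J.card, (s' + up m ((m - 1 - i) * d') - 1))
    (hx0 : x 0 = 0) :
    ∑ j, x j * y j ≤
      ∑ j ∈ Ico 1 m, (s + up m (j * d) - 1) * (s' + up m (j * d') - 1) := by
  have hcard : ((univ : Finset (ZMod m)).erase 0).card = m - 1 := by
    rw [card_erase_of_mem (mem_univ _), card_univ, ZMod.card]
  have h3 := rearr ((univ : Finset (ZMod m)).erase 0) x y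
    (fun i => s + up m ((m - 1 - i) * d) - 1) (fun i => s' + up m ((m - 1 - i) * d') - 1)
    (by
      intro i _ j _ hij
      have := up_mono m (Nat.mul_le_mul_right d (by omega : m - 1 - j ≤ m - 1 - i))
      omega)
    (by
      intro i _ j _ hij
      have := up_mono m (Nat.mul_le_mul_right d' (by omega : m - 1 - j ≤ m - 1 - i))
      omega)
    (fun S hS => h1 S (fun h => by simpa using hS h))
    (fun S hS => h2 S (fun h => by simpa using hS h))
  rw [hcard] at h3
  have h4 : ∑ j, x j * y j = ∑ j ∈ (univ : Finset (ZMod m)).erase 0, x j * y j := by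
    rw [← add_sum_erase univ _ (mem_univ (0 : ZMod m)), hx0, zero_mul, zero_add]
  rw [h4]
  refine h3.trans (le_of_eq ?_)
  -- reflection
  have h5 := sum_range_reflect
    (fun i => (s + up m ((i + 1) * d) - 1) * (s' + up m ((i + 1) * d') - 1)) (m - 1)
  rw [sum_Ico_eq_sum_range]
  simp only [Nat.add_comm 1]
  rw [← h5]
  apply sum_congr rfl
  intro i hi
  rw [mem_range] at hi
  have : m - 1 - 1 - i + 1 = m - 1 - i := by omega
  rw [this]

end CY
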